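import Pool.Agent.TH318.IvDef

/-!
# Definitions: beams which do not refocus
-/

set_option autoImplicit false

open Set Filter Topology
open scoped InnerProductSpace
open Pool.Agent.H721R2.Ivrii Pool.Agent.TH318.Iv

namespace Pool.Agent.T2H44.DF

variable {E : Type*} [NormedAddCommGroup E] [InnerProductSpace ℝ E] [CompleteSpace E]

/-- The bounce at the boundary point `q` with outgoing unit velocity `u` is focusing in all
directions with strength at least `κ`. (In the plane, at a boundary point of curvature `c`, positive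
for a convex table, where the trajectory makes the angle `θ` with the tangent, this is
`κ ≤ 2 c / sin θ`.) -/
def FocGe (Ω : Set E) (q u : E) (κ : ℝ) : Prop :=
  ∃ F : E → ℝ, LocalDef Ω q F ∧ ∀ w : E, ⟪gradient F q, w⟫_ℝ = 0 →
    κ * ‖gradient F q‖ ^ 2 * (‖w‖ ^ 2 - ⟪u, w⟫_ℝ ^ 2) ≤
      2 * |⟪gradient F q, u⟫_ℝ| * fderiv ℝ (fderiv ℝ F) q w w

/-- A beam leaving the bounce `0` of the path `p 0, …, p n` with the directions `u 0, …` comes to the
bounce `n` diverging. The numbers are distances along the path: at the arrival at the bounce `k` the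
beam diverges from points at least `a k` behind, at the departure from points at least `b k` behind
(at most `- b k` ahead, if `b k` is negative). Flat bounces do not change the beam, after a
non-focusing bounce a diverging beam is diverging, and a bounce which is focusing with strength at
least `κ > 1 / a k` in all directions makes it converge at a distance at most `a k / (κ * a k - 1)`. -/
def Spreads (Ω : Set E) (n : ℕ) (p u : ℕ → E) : Prop :=
  ∃ a b : ℕ → ℝ, b 0 = 0 ∧ (∀ k < n, a (k + 1) ≤ b k + ‖p (k + 1) - p k‖) ∧ 0 < a n ∧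
    ∀ k, 0 < k → k < n →
      (ZeroCurv Ω (p k) ∧ b k ≤ a k) ∨
      (NonFocusing Ω (p k) ∧ 0 ≤ a k ∧ b k ≤ 0) ∨
      (∃ κ : ℝ, 0 < κ ∧ FocGe Ω (p k) (u k) κ ∧ 1 < κ * a k ∧ b k ≤ -(a k / (κ * a k - 1)))

/-- The phase points whose billiard trajectory is periodic modulo some isometry `g ∈ Γ` and such
that, for some bounce `i`, the beams leaving this bounce come back diverging to its image under `g`. -/
def SpreadPer (Γ : Set (E ≃ᵃⁱ[ℝ] E)) (Ω : Set E) : Set (E × E) :=
  {z | ∃ g ∈ Γ, ∃ (n : ℕ) (p u : ℕ → E) (i : ℕ), OrbitMod Ω g n p u ∧ (p 0, u 0) = z ∧ i < n ∧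
    Spreads Ω n (fun k => p (k + i)) (fun k => u (k + i))}

/-- The strength of a bounce and the reach `f`: the bounce is non-focusing and `f = 0`, or focusing in
all directions with strength at least `2 / f`. -/
def Reach (Ω : Set E) (q u : E) (f : ℝ) : Prop :=
  (f = 0 ∧ NonFocusing Ω q) ∨ (0 < f ∧ FocGe Ω q u (2 / f))

end Pool.Agent.T2H44.DF
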