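import Pool.Agent.T2H44.IV.Lin3
import Pool.Agent.TH318.IvH

/-!
# The unfolded Jacobi fields of a chain of mirrors
-/

set_option autoImplicit false

open MeasureTheory Set Filter Topology
open scoped InnerProductSpace
open Pool.Agent.H721R2.Quart Pool.Agent.H721R2.Ivrii Pool.Agent.TH746 Pool.Agent.TH318.Iv

namespace Pool.Agent.T2H44.DF

open Pool.Agent.T2H44.IV

section
variable {E Z : Type*} [NormedAddCommGroup E] [InnerProductSpace ℝ E] [FiniteDimensional ℝ E]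
  [NormedAddCommGroup Z] [NormedSpace ℝ Z]

/-- The product of the reflections in the reverse order: parallel transport. -/
noncomputable def RS (n : ℕ → E) : ℕ → (E →ₗ[ℝ] E)
  | 0 => LinearMap.id
  | k + 1 => rfL (n (k + 1)) ∘ₗ RS n k

omit [FiniteDimensional ℝ E] in
theorem RS_zero (n : ℕ → E) (v : E) : RS n 0 v = v := rfl

omit [FiniteDimensional ℝ E] in
theorem RS_succ (n : ℕ → E) (k : ℕ) (v : E) : RS n (k + 1) v = rf (n (k + 1)) (RS n k v) := rfl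

omit [FiniteDimensional ℝ E] in
theorem RR_RS {n : ℕ → E} {N : ℕ} (hn : ∀ k < N, ⟪n (k + 1), n (k + 1)⟫_ℝ = 1) :
    ∀ k ≤ N, ∀ v, RR n k (RS n k v) = v := by
  intro k
  induction k with
  | zero => intro _ v; rfl
  | succ k ih =>
    intro hk v
    rw [RR_succ, RS_succ, G3_rf_invol (hn k (by omega)), ih (by omega)]

omit [FiniteDimensional ℝ E] in
theorem RS_RR {n : ℕ → E} {N : ℕ} (hn : ∀ k < N, ⟪n (k + 1), n (k + 1)⟫_ℝ = 1) :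
    ∀ k ≤ N, ∀ v, RS n k (RR n k v) = v := by
  intro k hk v
  have h1 := RR_RS hn k hk (RR n k v)
  have h2 := RR_inner hn k hk (RS n k (RR n k v) - v) (RS n k (RR n k v) - v)
  rw [map_sub, h1, sub_self, inner_zero_left] at h2
  exact sub_eq_zero.1 (inner_self_eq_zero.1 h2.symm)

/-- The bounce `k + 1`, numbered modulo `N`. -/
def nx (N k : ℕ) : ℕ := if k + 1 < N then k + 1 else 0

/-- The variation `ζ` is closed. -/
def Cl (C : Chn E Z) (z ζ : Z) : Prop :=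
  fderiv ℝ (C.x C.N) z ζ = C.G (fderiv ℝ (C.x 0) z ζ) ∧
  fderiv ℝ (C.e C.N) z ζ = C.G (fderiv ℝ (C.e 0) z ζ) ∧
  fderiv ℝ (C.n C.N) z ζ = C.G (fderiv ℝ (C.n 0) z ζ)

/-- All the variations, unfolded. -/
theorem unf_jo [FiniteDimensional ℝ Z] (C : Chn E Z) {z : Z} (hz : z ∈ C.U)
    (he : C.e C.N z = C.G (C.e 0 z)) (hn : C.n C.N z = C.G (C.n 0 z))
    (hZ : Module.finrank ℝ Z + 2 = 2 * Module.finrank ℝ E) :
    ∃ (J : Jo (ℝ ∙ C.e 0 z)ᗮ) (f : Z →ₗ[ℝ] ((ℝ ∙ C.e 0 z)ᗮ × (ℝ ∙ C.e 0 z)ᗮ)),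
      Function.Injective f ∧ Function.Surjective f ∧ (∀ ζ, Cl C z ζ → f ζ ∈ J.N) ∧
      J.q = C.N ∧ (∀ k < C.N, J.L k = C.L k z) ∧
      (∀ y, (J.U y : E) = RR (fun k => C.n k z) C.N (C.G (y : E))) ∧
      ∀ k < C.N, ∃ T : (ℝ ∙ C.e 0 z)ᗮ →ₗ[ℝ] E,
        (∀ y, ⟪C.n (nx C.N k) z, T y⟫_ℝ = 0) ∧
        (∀ y, ‖y‖ ^ 2 = ‖T y‖ ^ 2 - ⟪C.e (nx C.N k) z, T y⟫_ℝ ^ 2) ∧
        ∀ y y', ⟪J.K k y, y'⟫_ℝ = -2 * ⟪C.n (nx C.N k) z, C.e (nx C.N k) z⟫_ℝ *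
          ⟪C.S (nx C.N k) z (T y), T y'⟫_ℝ := by
  classical
  have hN := C.hN
  obtain ⟨X, hXd⟩ : ∃ X : ℕ → Z →ₗ[ℝ] E, ∀ k ζ, X k ζ = fderiv ℝ (C.x k) z ζ :=
    ⟨fun k => (fderiv ℝ (C.x k) z : Z →ₗ[ℝ] E), fun k ζ => rfl⟩
  obtain ⟨D, hDd⟩ : ∃ D : ℕ → Z →ₗ[ℝ] E, ∀ k ζ, D k ζ = fderiv ℝ (C.e k) z ζ :=
    ⟨fun k => (fderiv ℝ (C.e k) z : Z →ₗ[ℝ] E), fun k ζ => rfl⟩
  obtain ⟨n, hnd⟩ : ∃ n : ℕ → E, ∀ k, n k = C.n k z := ⟨fun k => C.n k z, fun k => rfl⟩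
  obtain ⟨e, hed⟩ : ∃ e : ℕ → E, ∀ k, e k = C.e k z := ⟨fun k => C.e k z, fun k => rfl⟩
  obtain ⟨L, hLd⟩ : ∃ L : ℕ → ℝ, ∀ k, L k = C.L k z := ⟨fun k => C.L k z, fun k => rfl⟩
  obtain ⟨S, hSd⟩ : ∃ S : ℕ → E →L[ℝ] E, (∀ k < C.N, S k = C.S k z) ∧
      S C.N = C.G.comp ((C.S 0 z).comp C.Gi) :=
    ⟨fun k => if k < C.N then C.S k z else C.G.comp ((C.S 0 z).comp C.Gi),
      fun k hk => if_pos hk, if_neg (lt_irrefl _)⟩
  have hn0 : n C.N = C.G (n 0) := by rw [hnd, hnd, hn]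
  have he0 : e C.N = C.G (e 0) := by rw [hed, hed, he]
  have ee : ∀ k < C.N, ⟪e k, e k⟫_ℝ = 1 := fun k hk => by rw [hed]; exact C.ee k hk z hz
  have nn : ∀ k < C.N, ⟪n (k + 1), n (k + 1)⟫_ℝ = 1 := by
    intro k hk
    rcases Nat.lt_or_ge (k + 1) C.N with h | h
    · rw [hnd]; exact C.nn (k + 1) h z hz
    · have h2 : k + 1 = C.N := by omega
      rw [h2, hn0, C.G_iso, hnd]
      exact C.nn 0 hN z hz
  have refl : ∀ k < C.N, e (k + 1) = rf (n (k + 1)) (e k) := by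
    intro k hk
    rw [hed, hed, hnd]
    exact C.refl k hk z
  have eD : ∀ k ≤ C.N, ∀ ζ, (k < C.N ∨ Cl C z ζ) → ⟪e k, D k ζ⟫_ℝ = 0 := by
    intro k hk ζ hcl
    rcases Nat.lt_or_ge k C.N with h | h
    · rw [hDd, hed]
      exact G3_unit C.hU hz (C.de k h.le z hz) (C.ee k h) ζ
    · have h2 : k = C.N := by omega
      have hE := (hcl.resolve_left (by omega)).2.1
      rw [h2, hDd, he0, hE, C.G_iso, hed]
      exact G3_unit C.hU hz (C.de 0 hN.le z hz) (C.ee 0 hN) ζ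
  have nX : ∀ k < C.N, ∀ ζ, (k + 1 < C.N ∨ Cl C z ζ) → ⟪n (k + 1), X (k + 1) ζ⟫_ℝ = 0 := by
    intro k hk ζ hcl
    rw [hnd, hXd]
    rcases Nat.lt_or_ge (k + 1) C.N with h | h
    · exact C.tan (k + 1) h z hz ζ
    · have h2 : k + 1 = C.N := by omega
      have hX := (hcl.resolve_left (by omega)).1
      rw [h2, hn, hX, C.G_iso]
      exact C.tan 0 hN z hz ζ
  have step : ∀ k < C.N, ∀ ζ, ∃ ℓ : ℝ, X (k + 1) ζ = X k ζ + ℓ • e k + L k • D k ζ := by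
    intro k hk ζ
    refine ⟨fderiv ℝ (C.L k) z ζ, ?_⟩
    rw [hXd, hXd, hDd, hed, hLd]
    exact G3_step C.hU hz (C.dx k hk.le z hz) (C.de k hk.le z hz)
        (C.dL k hk z hz) (fun z _ => C.step k hk z) ζ
  have sym : ∀ k < C.N, ∀ v w, ⟪S (k + 1) v, w⟫_ℝ = ⟪v, S (k + 1) w⟫_ℝ := by
    intro k hk v w
    rcases Nat.lt_or_ge (k + 1) C.N with h | h
    · rw [hSd.1 _ h]; exact C.sym (k + 1) h z hz v w
    · have h2 : k + 1 = C.N := by omega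
      rw [h2, hSd.2]
      simp only [ContinuousLinearMap.comp_apply]
      rw [C.G_adj, C.sym 0 hN z hz, ← C.G_iso (C.Gi v), C.G_Gi]
  have Sn : ∀ k < C.N, S (k + 1) (n (k + 1)) = 0 := by
    intro k hk
    rcases Nat.lt_or_ge (k + 1) C.N with h | h
    · rw [hSd.1 _ h, hnd]; exact C.Sn (k + 1) h z hz
    · have h2 : k + 1 = C.N := by omega
      rw [h2, hSd.2, hn0]
      simp only [ContinuousLinearMap.comp_apply]
      rw [C.Gi_G, hnd, C.Sn 0 hN z hz, map_zero]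
  have njac : ∀ k < C.N, ∀ ζ, (k + 1 < C.N ∨ Cl C z ζ) →
      fderiv ℝ (C.n (k + 1)) z ζ = -S (k + 1) (X (k + 1) ζ) := by
    intro k hk ζ hcl
    rcases Nat.lt_or_ge (k + 1) C.N with h | h
    · rw [hSd.1 _ h, hXd]; exact C.njac (k + 1) h z hz ζ
    · have h2 : k + 1 = C.N := by omega
      obtain ⟨hX, -, hn'⟩ := hcl.resolve_left (by omega)
      rw [h2, hSd.2, hn', C.njac 0 hN z hz, hXd, hX]
      simp only [ContinuousLinearMap.comp_apply]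
      rw [C.Gi_G, map_neg]
  have tr : ∀ k < C.N, ⟪n (k + 1), e k⟫_ℝ ≠ 0 := by
    intro k hk h0
    have h1 : ⟪n (k + 1), e (k + 1)⟫_ℝ = 0 := by
      rw [refl k hk]; unfold rf; rw [inner_sub_right, inner_smul_right, h0]; simp
    rcases Nat.lt_or_ge (k + 1) C.N with h | h
    · rw [hnd, hed] at h1
      exact C.tr (k + 1) h z hz h1
    · have h2 : k + 1 = C.N := by omega
      rw [h2, hn0, he0, C.G_iso, hnd, hed] at h1
      exact C.tr 0 hN z hz h1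
  have rjac : ∀ k < C.N, ∀ ζ, (k + 1 < C.N ∨ Cl C z ζ) → D (k + 1) ζ = rf (n (k + 1)) (D k ζ)
      + (2 * ⟪S (k + 1) (X (k + 1) ζ), e k⟫_ℝ) • n (k + 1)
      + (2 * ⟪n (k + 1), e k⟫_ℝ) • S (k + 1) (X (k + 1) ζ) := by
    intro k hk ζ hcl
    have h1 : C.e (k + 1) = fun z => rf (C.n (k + 1) z) (C.e k z) := by
      funext z; exact C.refl k (by omega) z
    have h2 := G3_rf_fderiv (C.dn (k + 1) (by omega) z hz) (C.de k (by omega) z hz) ζ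
    rw [← h1, njac k hk ζ hcl, ← hDd, ← hDd, ← hed, ← hnd, inner_neg_left] at h2
    rw [h2]
    module
  -- the projection
  have e0 : ⟪e 0, e 0⟫_ℝ = 1 := ee 0 hN
  obtain ⟨pW, hpW⟩ : ∃ pW : E →ₗ[ℝ] (ℝ ∙ C.e 0 z)ᗮ, ∀ v, ⟪e 0, v⟫_ℝ = 0 → (pW v : E) = v := by
    refine ⟨LinearMap.codRestrict _ (PP (e 0)) (fun v => ?_), fun v hv => ?_⟩
    · rw [Submodule.mem_orthogonal_singleton_iff_inner_right, ← hed, PP_apply, inner_sub_right,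
        inner_smul_right, e0]
      ring
    · change PP (e 0) v = v
      rw [PP_apply, hv]; simp
  have We : ∀ y : (ℝ ∙ C.e 0 z)ᗮ, ⟪e 0, (y : E)⟫_ℝ = 0 := by
    intro y
    rw [hed]
    exact Submodule.mem_orthogonal_singleton_iff_inner_right.1 y.2
  have PPe : ∀ v, ⟪e 0, PP (e 0) v⟫_ℝ = 0 := by
    intro v
    rw [PP_apply, inner_sub_right, inner_smul_right, e0]; ring
  -- the section
  obtain ⟨f, hf⟩ : ∃ f : Z →ₗ[ℝ] ((ℝ ∙ C.e 0 z)ᗮ × (ℝ ∙ C.e 0 z)ᗮ),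
      ∀ ζ, f ζ = (pW (PP (e 0) (X 0 ζ)), pW (D 0 ζ)) :=
    ⟨LinearMap.prod (pW ∘ₗ PP (e 0) ∘ₗ X 0) (pW ∘ₗ D 0), fun ζ => rfl⟩
  have hfs : Function.Surjective f := by
    rintro ⟨a, b⟩
    have htr : ⟪n 0, e 0⟫_ℝ ≠ 0 := by rw [hnd, hed]; exact C.tr 0 hN z hz
    obtain ⟨ζ, h1, h2⟩ := C.surj z hz ((a : E) - (⟪n 0, (a : E)⟫_ℝ / ⟪n 0, e 0⟫_ℝ) • e 0) (b : E)
      (by rw [← hnd, inner_sub_right, inner_smul_right, div_mul_cancel₀ _ htr, sub_self])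
      (Submodule.mem_orthogonal_singleton_iff_inner_right.1 b.2)
    refine ⟨ζ, ?_⟩
    rw [hf, hXd, hDd, h1, h2]
    refine Prod.ext ?_ ?_
    · apply Subtype.ext
      change (pW (PP (e 0) ((a : E) - (⟪n 0, (a : E)⟫_ℝ / ⟪n 0, e 0⟫_ℝ) • e 0)) : E) = a
      rw [hpW _ (PPe _), PP_apply, inner_sub_right, inner_smul_right, We a, e0]
      module
    · apply Subtype.ext
      exact hpW _ (We b)
  have hfr : Module.finrank ℝ Z =
      Module.finrank ℝ ((ℝ ∙ C.e 0 z)ᗮ × (ℝ ∙ C.e 0 z)ᗮ) := by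
    have h1 := Submodule.finrank_add_finrank_orthogonal (ℝ ∙ (C.e 0 z))
    have h2 : Module.finrank ℝ (ℝ ∙ (C.e 0 z)) = 1 := by
      refine finrank_span_singleton fun h0 => ?_
      have h6 := C.ee 0 C.hN z hz
      rw [h0, inner_zero_left] at h6
      exact zero_ne_one h6
    rw [Module.finrank_prod]
    omega
  have hfi : Function.Injective f := (LinearMap.injective_iff_surjective_of_finrank_eq_finrank
    hfr).2 hfs
  obtain ⟨σ, hσf⟩ : ∃ σ : ((ℝ ∙ C.e 0 z)ᗮ × (ℝ ∙ C.e 0 z)ᗮ) →ₗ[ℝ] Z, ∀ x, f (σ x) = x := by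
    obtain ⟨g, hg⟩ := f.exists_rightInverse_of_surjective (LinearMap.range_eq_top.2 hfs)
    refine ⟨g, fun x => ?_⟩
    exact congrArg (fun T : ((ℝ ∙ C.e 0 z)ᗮ × (ℝ ∙ C.e 0 z)ᗮ) →ₗ[ℝ] _ => T x) hg
  have hσ : ∀ x, pW (PP (e 0) (X 0 (σ x))) = x.1 ∧ pW (D 0 (σ x)) = x.2 := by
    intro x
    have h1 := hσf x
    rw [hf] at h1
    exact ⟨congrArg Prod.fst h1, congrArg Prod.snd h1⟩
  have RI := RR_inner nn
  have Re := RR_e nn refl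
  obtain ⟨A, hA⟩ : ∃ A : ℕ → ((ℝ ∙ C.e 0 z)ᗮ × (ℝ ∙ C.e 0 z)ᗮ) →ₗ[ℝ] (ℝ ∙ C.e 0 z)ᗮ,
      ∀ k, A k = pW ∘ₗ RR n k ∘ₗ PP (e k) ∘ₗ X k ∘ₗ σ := ⟨_, fun k => rfl⟩
  obtain ⟨B, hB⟩ : ∃ B : ℕ → ((ℝ ∙ C.e 0 z)ᗮ × (ℝ ∙ C.e 0 z)ᗮ) →ₗ[ℝ] (ℝ ∙ C.e 0 z)ᗮ,
      ∀ k, B k = pW ∘ₗ RR n k ∘ₗ D k ∘ₗ σ := ⟨_, fun k => rfl⟩
  have ee' : ∀ k ≤ C.N, ⟪e k, e k⟫_ℝ = 1 := by
    intro k hk
    rcases Nat.lt_or_ge k C.N with h | h
    · exact ee k h
    · have h2 : k = C.N := by omega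
      rw [h2, he0, C.G_iso]; exact e0
  have Av : ∀ k ≤ C.N, ∀ δ, (A k δ : E) = RR n k (PP (e k) (X k (σ δ))) := by
    intro k hk δ
    rw [hA]
    refine hpW (RR n k (PP (e k) (X k (σ δ)))) ?_
    rw [← Re k hk, RI k hk, PP_apply, inner_sub_right, inner_smul_right, ee' k hk]
    ring
  have Bv : ∀ k ≤ C.N, ∀ δ, (k < C.N ∨ Cl C z (σ δ)) → (B k δ : E) = RR n k (D k (σ δ)) := by
    intro k hk δ hcl
    rw [hB]
    refine hpW (RR n k (D k (σ δ))) ?_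
    rw [← Re k hk, RI k hk]
    exact eD k hk _ hcl
  -- the two perpendicular components at a vertex
  have nxt : ∀ k < C.N, ∀ δ, (k + 1 < C.N ∨ Cl C z (σ δ)) →
      (A (k + 1) δ : E) = RR n k (PP (e k) (X (k + 1) (σ δ))) := by
    intro k hk δ hcl
    rw [Av (k + 1) hk, RR_succ]
    congr 1
    have h1 : ⟪e (k + 1), X (k + 1) (σ δ)⟫_ℝ = ⟪e k, X (k + 1) (σ δ)⟫_ℝ := by
      rw [refl k hk, G3_rf_sym, G3_rf_tan (nX k hk _ hcl)]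
    rw [PP_apply, PP_apply, h1, G3_rf_sub, G3_rf_smul, G3_rf_tan (nX k hk _ hcl), refl k hk,
      G3_rf_invol (nn k hk)]
  have A0 : ∀ x, A 0 x = x.1 := by
    intro x
    rw [hA]
    exact (hσ x).1
  have B0 : ∀ x, B 0 x = x.2 := by
    intro x
    rw [hB]
    exact (hσ x).2
  have stp : ∀ k < C.N, ∀ x, (k + 1 < C.N ∨ Cl C z (σ x)) →
      A (k + 1) x = A k x + L k • B k x := by
    intro k hk δ hcl
    apply Subtype.ext
    rw [nxt k hk δ hcl]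
    simp only [Submodule.coe_add, Submodule.coe_smul]
    rw [Av k hk.le, Bv k hk.le δ (Or.inl hk), ← map_smul, ← map_add]
    congr 1
    obtain ⟨ℓ, hl⟩ := step k hk (σ δ)
    rw [PP_apply, PP_apply, hl]
    simp only [inner_add_right, inner_smul_right, ee k hk, eD k hk.le _ (Or.inl hk)]
    module
  -- the holonomy
  obtain ⟨U, hU⟩ : ∃ U : (ℝ ∙ C.e 0 z)ᗮ →ₗ[ℝ] (ℝ ∙ C.e 0 z)ᗮ, ∀ y : (ℝ ∙ C.e 0 z)ᗮ,
      (U y : E) = RR n C.N (C.G (y : E)) := by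
    refine ⟨pW ∘ₗ RR n C.N ∘ₗ (C.G : E →ₗ[ℝ] E) ∘ₗ (ℝ ∙ C.e 0 z)ᗮ.subtype, fun y => ?_⟩
    refine hpW (RR n C.N (C.G (y : E))) ?_
    rw [← Re C.N le_rfl, RI C.N le_rfl, he0, C.G_iso]
    exact We y
  have A0v : ∀ x, (x.1 : E) = PP (e 0) (X 0 (σ x)) := by
    intro x
    rw [← (hσ x).1]
    exact hpW _ (PPe _)
  have B0v : ∀ x, (x.2 : E) = D 0 (σ x) := by
    intro x
    rw [← (hσ x).2]
    exact hpW _ (eD 0 hN.le _ (Or.inl hN))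
  have Aq : ∀ x, Cl C z (σ x) → A C.N x = U x.1 := by
    intro x hcl
    apply Subtype.ext
    rw [Av C.N le_rfl, hU, A0v, hXd, hcl.1, ← hXd, PP_apply, PP_apply, he0, C.G_iso]
    simp only [map_sub, map_smul]
  have Bq : ∀ x, Cl C z (σ x) → B C.N x = U x.2 := by
    intro x hcl
    apply Subtype.ext
    rw [Bv C.N le_rfl x (Or.inr hcl), hU, B0v, hDd, hcl.2.1, ← hDd]
  -- the tangent vectors
  obtain ⟨T, hT⟩ : ∃ T : ℕ → (ℝ ∙ C.e 0 z)ᗮ →ₗ[ℝ] E, ∀ k y, T k y = RS n k (y : E) -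
      (⟪n (k + 1), RS n k (y : E)⟫_ℝ / ⟪n (k + 1), e k⟫_ℝ) • e k := by
    refine ⟨fun k => RS n k ∘ₗ (ℝ ∙ C.e 0 z)ᗮ.subtype - (LinearMap.toSpanSingleton ℝ E (e k)) ∘ₗ
      ((⟪n (k + 1), e k⟫_ℝ)⁻¹ • (innerₛₗ ℝ (n (k + 1)))) ∘ₗ RS n k ∘ₗ (ℝ ∙ C.e 0 z)ᗮ.subtype,
      fun k y => ?_⟩
    simp only [LinearMap.sub_apply, LinearMap.comp_apply, LinearMap.smul_apply,
      LinearMap.toSpanSingleton_apply, Submodule.subtype_apply, innerₛₗ_apply_apply, smul_eq_mul]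
    rw [mul_comm, ← div_eq_mul_inv]
  have TA : ∀ k < C.N, ∀ x, (k + 1 < C.N ∨ Cl C z (σ x)) →
      T k (A (k + 1) x) = X (k + 1) (σ x) := by
    intro k hk x hcl
    have h1 := tr k hk
    have h2 := nX k hk (σ x) hcl
    rw [hT, nxt k hk x hcl, RS_RR nn k hk.le, PP_apply, inner_sub_right, inner_smul_right, h2]
    have h3 : (0 - ⟪e k, X (k + 1) (σ x)⟫_ℝ * ⟪n (k + 1), e k⟫_ℝ) / ⟪n (k + 1), e k⟫_ℝ =
        -⟪e k, X (k + 1) (σ x)⟫_ℝ := by field_simp; ring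
    rw [h3]
    module
  have RSe : ∀ k ≤ C.N, ∀ y : (ℝ ∙ C.e 0 z)ᗮ, ⟪e k, RS n k (y : E)⟫_ℝ = 0 := by
    intro k hk y
    rw [← RI k hk, Re k hk, RR_RS nn k hk]
    exact We y
  have Tn : ∀ k < C.N, ∀ y, ⟪n (k + 1), T k y⟫_ℝ = 0 := by
    intro k hk y
    rw [hT, inner_sub_right, inner_smul_right, div_mul_cancel₀ _ (tr k hk), sub_self]
  have Tnorm : ∀ k < C.N, ∀ y, ‖y‖ ^ 2 = ‖T k y‖ ^ 2 - ⟪e k, T k y⟫_ℝ ^ 2 := by
    intro k hk y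
    have h1 : RS n k (y : E) = T k y - ⟪e k, T k y⟫_ℝ • e k := by
      rw [hT, inner_sub_right, inner_smul_right, ee k hk, RSe k hk.le]
      module
    rw [← norm_perp (ee k hk), ← h1]
    have h2 : ⟪RS n k (y : E), RS n k (y : E)⟫_ℝ = ⟪(y : E), (y : E)⟫_ℝ := by
      rw [← RI k hk.le, RR_RS nn k hk.le]
    rw [real_inner_self_eq_norm_sq, real_inner_self_eq_norm_sq] at h2
    rw [h2]
    rfl
  -- the kicks
  obtain ⟨K, hK⟩ : ∃ K : ℕ → (ℝ ∙ C.e 0 z)ᗮ →ₗ[ℝ] (ℝ ∙ C.e 0 z)ᗮ, ∀ k y y',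
      ⟪K k y, y'⟫_ℝ = 2 * ⟪n (k + 1), e k⟫_ℝ * ⟪S (k + 1) (T k y), T k y'⟫_ℝ := by
    refine ⟨fun k => (2 * ⟪n (k + 1), e k⟫_ℝ) •
      (LinearMap.adjoint (T k) ∘ₗ (S (k + 1) : E →ₗ[ℝ] E) ∘ₗ T k), fun k y y' => ?_⟩
    rw [LinearMap.smul_apply, real_inner_smul_left, LinearMap.comp_apply, LinearMap.comp_apply,
      LinearMap.adjoint_inner_left]
    rfl
  have stpB : ∀ k < C.N, ∀ x, (k + 1 < C.N ∨ Cl C z (σ x)) →
      B (k + 1) x = B k x + K k (A (k + 1) x) := by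
    intro k hk x hcl
    have h1 : ∀ y : (ℝ ∙ C.e 0 z)ᗮ, ⟪B (k + 1) x - (B k x + K k (A (k + 1) x)), y⟫_ℝ = 0 := by
      intro y
      rw [inner_sub_left, inner_add_left, hK, TA k hk x hcl, Submodule.coe_inner,
        Submodule.coe_inner, Bv (k + 1) hk x hcl, Bv k hk.le x (Or.inl hk)]
      have h2 : (y : E) = RR n k (RS n k (y : E)) := (RR_RS nn k hk.le _).symm
      obtain ⟨v, hv⟩ : ∃ v, v = RS n k (y : E) := ⟨_, rfl⟩
      have h3 : ⟪RR n (k + 1) (D (k + 1) (σ x)), (y : E)⟫_ℝ =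
          ⟪rf (n (k + 1)) (D (k + 1) (σ x)), v⟫_ℝ := by
        rw [h2, RR_succ, RI k hk.le, ← hv]
      have h4 : ⟪RR n k (D k (σ x)), (y : E)⟫_ℝ = ⟪D k (σ x), v⟫_ℝ := by
        rw [h2, RI k hk.le, ← hv]
      rw [h3, h4, rjac k hk _ hcl, hT, ← hv]
      have h5 : ⟪n (k + 1), S (k + 1) (X (k + 1) (σ x))⟫_ℝ = 0 := by
        rw [← sym k hk, Sn k hk, inner_zero_left]
      have h6 : rf (n (k + 1)) (n (k + 1)) = -n (k + 1) := by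
        unfold rf; rw [nn k hk]; module
      rw [G3_rf_add, G3_rf_add, G3_rf_smul, G3_rf_smul, G3_rf_invol (nn k hk), G3_rf_tan h5, h6]
      simp only [inner_add_left, real_inner_smul_left, inner_neg_left, inner_sub_right,
        inner_smul_right]
      have := tr k hk
      field_simp
      ring
    exact sub_eq_zero.1 (inner_self_eq_zero.1 (h1 _))
  -- the last step
  obtain ⟨m, hm⟩ : ∃ m, C.N = m + 1 := ⟨C.N - 1, by omega⟩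
  obtain ⟨A', hA1, hA2⟩ : ∃ A' : ℕ → ((ℝ ∙ C.e 0 z)ᗮ × (ℝ ∙ C.e 0 z)ᗮ) →ₗ[ℝ] (ℝ ∙ C.e 0 z)ᗮ,
      (∀ k < C.N, A' k = A k) ∧ A' C.N = A m + L m • B m :=
    ⟨fun k => if k < C.N then A k else A m + L m • B m, fun k hk => if_pos hk,
      if_neg (lt_irrefl _)⟩
  obtain ⟨B', hB1, hB2⟩ : ∃ B' : ℕ → ((ℝ ∙ C.e 0 z)ᗮ × (ℝ ∙ C.e 0 z)ᗮ) →ₗ[ℝ] (ℝ ∙ C.e 0 z)ᗮ,
      (∀ k < C.N, B' k = B k) ∧ B' C.N = B m + K m ∘ₗ A' C.N :=
    ⟨fun k => if k < C.N then B k else B m + K m ∘ₗ A' C.N, fun k hk => if_pos hk,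
      if_neg (lt_irrefl _)⟩
  have hm1 : m < C.N := by omega
  refine ⟨{
    q := C.N
    L := L
    K := K
    U := U
    A := A'
    B := B'
    hq := hN
    hL := fun k hk => by rw [hLd]; exact C.Lpos k hk z hz
    sym := fun k hk x y => by
      rw [hK, real_inner_comm (K k y) x, hK, sym k hk, real_inner_comm (S (k + 1) (T k y))]
    iso := fun x y => by
      rw [Submodule.coe_inner, Submodule.coe_inner, hU, hU, RI C.N le_rfl, C.G_iso]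
    A0 := fun x => by rw [hA1 0 hN]; exact A0 x
    B0 := fun x => by rw [hB1 0 hN]; exact B0 x
    stepA := fun k hk x => by
      rcases Nat.lt_or_ge (k + 1) C.N with h | h
      · rw [hA1 _ h, hA1 _ hk, hB1 _ hk]; exact stp k hk x (Or.inl h)
      · have h2 : k = m := by omega
        rw [h2, ← hm, hA2, hA1 _ hm1, hB1 _ hm1]
        rfl
    stepB := fun k hk x => by
      rcases Nat.lt_or_ge (k + 1) C.N with h | h
      · rw [hA1 _ h, hB1 _ h, hB1 _ hk]; exact stpB k hk x (Or.inl h)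
      · have h2 : k = m := by omega
        rw [h2, ← hm, hB2, hB1 _ hm1]
        rfl }, f, hfi, hfs, ?_, rfl, fun k hk => hLd k, ?_, ?_⟩
  · intro ζ hcl
    obtain ⟨x, hx⟩ : ∃ x, x = f ζ := ⟨_, rfl⟩
    have hσx : σ x = ζ := hfi (by rw [hσf, hx])
    have hcl' : Cl C z (σ x) := by rw [hσx]; exact hcl
    rw [← hx]
    refine (Jo.mem_N _).2 ?_
    have h1 : A' C.N x = U x.1 := by
      rw [← Aq x hcl', hA2]
      have := stp m hm1 x (Or.inr hcl')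
      rw [← hm] at this
      exact this.symm
    refine ⟨h1, ?_⟩
    change B' C.N x = U x.2
    rw [← Bq x hcl', hB2]
    have h2 := stpB m hm1 x (Or.inr hcl')
    rw [← hm] at h2
    rw [h2]
    change B m x + K m (A' C.N x) = _
    rw [h1, Aq x hcl']
  · intro y
    have : (fun k => C.n k z) = n := by funext k; exact (hnd k).symm
    rw [this]
    exact hU y
  · intro k hk
    have hne : ⟪n (k + 1), e (k + 1)⟫_ℝ = -⟪n (k + 1), e k⟫_ℝ := by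
      rw [refl k hk]; unfold rf
      rw [inner_sub_right, inner_smul_right, nn k hk]; ring
    have heT : ∀ y, ⟪e (k + 1), T k y⟫_ℝ = ⟪e k, T k y⟫_ℝ := by
      intro y
      rw [refl k hk, G3_rf_sym, G3_rf_tan (Tn k hk y)]
    rcases Nat.lt_or_ge (k + 1) C.N with h | h
    · have hnx : nx C.N k = k + 1 := if_pos h
      rw [hnx]
      refine ⟨T k, fun y => ?_, fun y => ?_, fun y y' => ?_⟩
      · rw [← hnd]; exact Tn k hk y
      · have h9 := Tnorm k hk y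
        rw [← heT, hed (k + 1)] at h9
        exact h9
      · change ⟪K k y, y'⟫_ℝ = _
        have h8 : 2 * ⟪n (k + 1), e k⟫_ℝ = -2 * ⟪C.n (k + 1) z, C.e (k + 1) z⟫_ℝ := by
          rw [← hnd, ← hed, hne]; ring
        rw [hK, h8, hSd.1 _ h]
    · have hnx : nx C.N k = 0 := if_neg (not_lt.2 h)
      have h2 : k + 1 = C.N := by omega
      rw [hnx]
      have hn1 : ∀ v, ⟪C.n 0 z, C.Gi v⟫_ℝ = ⟪n (k + 1), v⟫_ℝ := by
        intro v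
        rw [h2, hn0, C.G_adj, hnd]
      have he1 : ∀ v, ⟪C.e 0 z, C.Gi v⟫_ℝ = ⟪e (k + 1), v⟫_ℝ := by
        intro v
        rw [h2, he0, C.G_adj, hed]
      have hGn : ∀ v, ‖C.Gi v‖ = ‖v‖ := by
        intro v
        exact C.g.linearIsometryEquiv.symm.norm_map v
      refine ⟨(C.Gi : E →ₗ[ℝ] E) ∘ₗ T k, fun y => ?_, fun y => ?_, fun y y' => ?_⟩
      · change ⟪C.n 0 z, C.Gi (T k y)⟫_ℝ = 0
        rw [hn1]; exact Tn k hk y
      · change _ = ‖C.Gi (T k y)‖ ^ 2 - ⟪C.e 0 z, C.Gi (T k y)⟫_ℝ ^ 2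
        rw [he1, heT, hGn]; exact Tnorm k hk y
      · change ⟪K k y, y'⟫_ℝ = _ * ⟪C.S 0 z (C.Gi (T k y)), C.Gi (T k y')⟫_ℝ
        have h3 : ⟪C.n 0 z, C.e 0 z⟫_ℝ = -⟪n (k + 1), e k⟫_ℝ := by
          rw [← hne, h2, hn0, he0, C.G_iso, hnd, hed]
        have h4 : ⟪C.S 0 z (C.Gi (T k y)), C.Gi (T k y')⟫_ℝ =
            ⟪S (k + 1) (T k y), T k y'⟫_ℝ := by
          rw [h2, hSd.2]
          simp only [ContinuousLinearMap.comp_apply]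
          rw [C.G_adj]
        rw [hK, h3, h4]
        ring

end

end Pool.Agent.T2H44.DF
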