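import Pool.Agent.T2H44.IV.Lin3

/-!
# Beams which do not refocus
-/

set_option autoImplicit false

open Set Filter Topology
open scoped InnerProductSpace

namespace Pool.Agent.T2H44.DF

open Pool.Agent.T2H44.IV

section
variable {W : Type*} [NormedAddCommGroup W] [InnerProductSpace ℝ W]

/-- A strongly focusing kick. -/
theorem kick {y v k : W} {κ a : ℝ} (hκ : 0 < κ) (ha : 1 < κ * a)
    (hk : κ * ‖y‖ ^ 2 ≤ ⟪k, y⟫_ℝ) (h : a * ‖v‖ ^ 2 ≤ ⟪y, v⟫_ℝ) :
    -(a / (κ * a - 1)) * ‖v - k‖ ^ 2 ≤ ⟪y, v - k⟫_ℝ := by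
  have h1 : ⟪k, y⟫_ℝ ≤ ‖k‖ ^ 2 / κ := by
    rcases le_or_gt ⟪k, y⟫_ℝ 0 with h0 | h0
    · exact h0.trans (by positivity)
    · have h2 := real_inner_le_norm k y
      rw [le_div_iff₀ hκ]
      have h3 : ⟪k, y⟫_ℝ * ⟪k, y⟫_ℝ ≤ ‖k‖ ^ 2 * ‖y‖ ^ 2 := by
        have := mul_le_mul h2 h2 h0.le (by positivity)
        nlinarith
      have h4 : ⟪k, y⟫_ℝ * κ * ⟪k, y⟫_ℝ ≤ ‖k‖ ^ 2 * ⟪k, y⟫_ℝ := by
        have h5 := mul_le_mul_of_nonneg_left hk (sq_nonneg ‖k‖)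
        have h6 := mul_le_mul_of_nonneg_left h3 hκ.le
        nlinarith
      exact le_of_mul_le_mul_right h4 h0
  have hc : 0 < κ * a - 1 := by linarith
  have e1 : ‖v - k‖ ^ 2 = ‖v‖ ^ 2 - 2 * ⟪v, k⟫_ℝ + ‖k‖ ^ 2 := norm_sub_sq_real v k
  have e2 : ‖(κ * a) • v - k‖ ^ 2 = (κ * a) ^ 2 * ‖v‖ ^ 2 - 2 * (κ * a * ⟪v, k⟫_ℝ) + ‖k‖ ^ 2 := by
    rw [norm_sub_sq_real, norm_smul, real_inner_smul_left, mul_pow, Real.norm_eq_abs, sq_abs]
  have h2 : 0 ≤ ‖(κ * a) • v - k‖ ^ 2 := sq_nonneg _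
  rw [e2] at h2
  rw [e1, inner_sub_right, real_inner_comm k y]
  have h3 : (κ * a) ^ 2 * ‖v‖ ^ 2 - 2 * (κ * a * ⟪v, k⟫_ℝ) + ‖k‖ ^ 2 =
      κ * (κ * a - 1) * (a * ‖v‖ ^ 2 - ‖k‖ ^ 2 / κ +
        a / (κ * a - 1) * (‖v‖ ^ 2 - 2 * ⟪v, k⟫_ℝ + ‖k‖ ^ 2)) := by
    field_simp
    ring
  rw [h3] at h2
  have h4 := nonneg_of_mul_nonneg_right h2 (mul_pos hκ hc)
  linarith

/-- The parameters of the beam along the path. -/
theorem beam (J : Jo W) [FiniteDimensional ℝ W] (a b : ℕ → ℝ) (hb0 : b 0 = 0)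
    (hab : ∀ k < J.q, a (k + 1) ≤ b k + J.L k) (han : 0 < a J.q)
    (hk : ∀ k, k + 1 < J.q → (J.K k = 0 ∧ b (k + 1) ≤ a (k + 1)) ∨
      ((∀ y, 0 ≤ ⟪J.K k y, y⟫_ℝ) ∧ 0 ≤ a (k + 1) ∧ b (k + 1) ≤ 0) ∨
      (∃ κ : ℝ, 0 < κ ∧ (∀ y, κ * ‖y‖ ^ 2 ≤ -⟪J.K k y, y⟫_ℝ) ∧ 1 < κ * a (k + 1) ∧
        b (k + 1) ≤ -(a (k + 1) / (κ * a (k + 1) - 1)))) :
    Module.finrank ℝ J.N ≤ Module.finrank ℝ W := by
  obtain ⟨f, hf⟩ : ∃ f : J.N →ₗ[ℝ] W, ∀ x, f x = (x : W × W).1 :=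
    ⟨LinearMap.fst ℝ W W ∘ₗ J.N.subtype, fun x => rfl⟩
  apply LinearMap.finrank_le_finrank_of_injective (f := f)
  rw [← LinearMap.ker_eq_bot, LinearMap.ker_eq_bot']
  intro x hx
  rw [hf] at hx
  obtain ⟨hx1, hx2⟩ := J.mem_N.1 x.2
  -- the cone after the bounce `m`
  have key : ∀ m, m < J.q → b m * ‖J.B m (x : W × W)‖ ^ 2 ≤
      ⟪J.A m (x : W × W), J.B m (x : W × W)⟫_ℝ := by
    intro m
    induction m with
    | zero =>
      intro _
      rw [J.A0, hx, inner_zero_left, hb0, zero_mul]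
    | succ m ih =>
      intro hm
      have h1 := ih (by omega)
      have h2 : a (m + 1) * ‖J.B m (x : W × W)‖ ^ 2 ≤
          ⟪J.A (m + 1) (x : W × W), J.B m (x : W × W)⟫_ℝ := by
        rw [J.stepA m (by omega), inner_add_left, real_inner_smul_left,
          real_inner_self_eq_norm_sq]
        have h3 := mul_le_mul_of_nonneg_right (hab m (by omega)) (sq_nonneg ‖J.B m (x : W × W)‖)
        rw [add_mul] at h3
        linarith
      rw [J.stepB m (by omega)]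
      rcases hk m hm with ⟨h3, h4⟩ | ⟨h3, h4, h5⟩ | ⟨κ, h3, h4, h5, h6⟩
      · rw [h3, LinearMap.zero_apply, add_zero]
        exact (mul_le_mul_of_nonneg_right h4 (sq_nonneg _)).trans h2
      · have h6 := h3 (J.A (m + 1) (x : W × W))
        rw [real_inner_comm] at h6
        rw [inner_add_right]
        have h7 := mul_nonneg h4 (sq_nonneg ‖J.B m (x : W × W)‖)
        have h8 := mul_nonpos_of_nonpos_of_nonneg h5 (sq_nonneg
          ‖J.B m (x : W × W) + J.K m (J.A (m + 1) (x : W × W))‖)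
        linarith
      · have h7 := h4 (J.A (m + 1) (x : W × W))
        rw [← inner_neg_left] at h7
        have h8 := kick h3 h5 h7 h2
        rw [sub_neg_eq_add] at h8
        refine (mul_le_mul_of_nonneg_right h6 (sq_nonneg _)).trans h8
  obtain ⟨n, hn⟩ : ∃ n, J.q = n + 1 := ⟨J.q - 1, by have := J.hq; omega⟩
  have hlast : J.B n (x : W × W) = 0 := by
    have h1 := key n (by omega)
    have h2 := J.stepA n (by omega) (x : W × W)
    rw [← hn, hx1, hx, map_zero] at h2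
    have h3 : J.A n (x : W × W) = -(J.L n • J.B n (x : W × W)) :=
      eq_neg_of_add_eq_zero_left h2.symm
    rw [h3, inner_neg_left, real_inner_smul_left, real_inner_self_eq_norm_sq] at h1
    have h4 := hab n (by omega)
    rw [← hn] at h4
    have h5 : (b n + J.L n) * ‖J.B n (x : W × W)‖ ^ 2 ≤ 0 := by linarith
    have h6 : 0 < b n + J.L n := by linarith
    have h7 : ‖J.B n (x : W × W)‖ ^ 2 ≤ 0 := by
      by_contra hcon
      have := mul_pos h6 (not_le.1 hcon)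
      linarith
    exact norm_eq_zero.1 (pow_eq_zero_iff two_ne_zero |>.1 (le_antisymm h7 (sq_nonneg _)))
  -- backwards
  have back : ∀ j, j ≤ n → J.A (n - j) (x : W × W) = 0 ∧ J.B (n - j) (x : W × W) = 0 := by
    intro j
    induction j with
    | zero =>
      intro _
      refine ⟨?_, hlast⟩
      have h2 := J.stepA n (by omega) (x : W × W)
      rw [← hn, hx1, hx, map_zero, hlast, smul_zero, add_zero] at h2
      exact h2.symm
    | succ j ih =>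
      intro hj
      obtain ⟨h1, h2⟩ := ih (by omega)
      have e : n - j = (n - (j + 1)) + 1 := by omega
      rw [e] at h1 h2
      have h3 := J.stepB (n - (j + 1)) (by omega) (x : W × W)
      rw [h1, h2, map_zero, add_zero] at h3
      have h4 := J.stepA (n - (j + 1)) (by omega) (x : W × W)
      rw [h1, ← h3, smul_zero, add_zero] at h4
      exact ⟨h4.symm, h3.symm⟩
  apply Subtype.ext
  refine Prod.ext hx ?_
  have h1 := (back n le_rfl).2
  rw [Nat.sub_self, J.B0] at h1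
  exact h1

end

end Pool.Agent.T2H44.DF
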