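import Pool.Agent.T2H44.DF.Geo
import Pool.Agent.T2H44.DF.Lin
import Pool.Agent.T2H44.DF.Def
import Pool.Agent.T2H44.IV.Dim
import Pool.Agent.TH318.IvJ

/-!
# Periodic orbits with defocusing off one bounce
-/

set_option autoImplicit false

open MeasureTheory Set Filter Topology
open scoped InnerProductSpace ENNReal
open Pool.Agent.H721R2.Quart Pool.Agent.H721R2.Ivrii Pool.Agent.TH746 Pool.Agent.TH318.Iv

namespace Pool.Agent.T2H44.DF

open Pool.Agent.T2H44.IV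

/-- The dimension of a set which is locally small. -/
theorem dim_of_local {X Y : Type*} [TopologicalSpace X] [SecondCountableTopology X]
    [EMetricSpace Y] (D : ℝ≥0∞) (π : X → Y) (W : Set X)
    (h : ∀ w ∈ W, ∃ Z : Set Y, dimH Z ≤ D ∧ ∀ᶠ w' in 𝓝 w, w' ∈ W → π w' ∈ Z) :
    dimH (π '' W) ≤ D := by
  classical
  choose! Z hZ hZ' using h
  obtain ⟨t, htW, htc, hcov⟩ := TopologicalSpace.countable_cover_nhdsWithin
    (f := fun w => {w' | w' ∈ W → π w' ∈ Z w}) (s := W)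
    (fun w hw => mem_nhdsWithin_of_mem_nhds (hZ' w hw))
  refine (dimH_mono (t := ⋃ w ∈ t, Z w) ?_).trans ?_
  · rintro _ ⟨w, hw, rfl⟩
    obtain ⟨w0, hw0, h1⟩ := mem_iUnion₂.1 (hcov hw)
    exact mem_iUnion₂.2 ⟨w0, hw0, h1 hw⟩
  · rw [dimH_bUnion htc]
    exact iSup₂_le fun w hw => hZ w (htW hw)

theorem pull_dim {E : Type*} [NormedAddCommGroup E] [InnerProductSpace ℝ E]
    (g : E ≃ᵃⁱ[ℝ] E) (Z : Set (E × E)) :
    dimH {z : E × E | (g z.1, g.linearIsometryEquiv z.2) ∈ Z} ≤ dimH Z := by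
  have hlip : LipschitzWith 1
      (fun z : E × E => (g.symm z.1, g.linearIsometryEquiv.symm z.2)) := by
    refine LipschitzWith.of_dist_le_mul fun x y => ?_
    simp only [Prod.dist_eq, LinearIsometryEquiv.dist_map, AffineIsometryEquiv.dist_map,
      NNReal.coe_one, one_mul]
    exact le_rfl
  refine (dimH_mono ?_).trans (hlip.dimH_image_le Z)
  intro z hz
  exact ⟨_, hz, by simp⟩

section
variable {E Z : Type*} [NormedAddCommGroup E] [InnerProductSpace ℝ E] [FiniteDimensional ℝ E]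
  [NormedAddCommGroup Z] [NormedSpace ℝ Z]

/-- The failure of the trajectory to close. -/
noncomputable def gap (C : Chn E Z) (z : Z) : E × E × E :=
  (C.x C.N z - C.g (C.x 0 z), C.e C.N z - C.G (C.e 0 z), C.n C.N z - C.G (C.n 0 z))

theorem gap_diff (C : Chn E Z) {z : Z} (hz : z ∈ C.U) : HasFDerivAt (gap C)
    ((fderiv ℝ (C.x C.N) z - C.G.comp (fderiv ℝ (C.x 0) z)).prod
      ((fderiv ℝ (C.e C.N) z - C.G.comp (fderiv ℝ (C.e 0) z)).prod
        (fderiv ℝ (C.n C.N) z - C.G.comp (fderiv ℝ (C.n 0) z)))) z := by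
  have hg : ∀ y, C.g y = C.G y + C.g 0 := by
    intro y
    have h1 := C.g.map_vadd 0 y
    simp only [vadd_eq_add, add_zero] at h1
    exact h1
  have h1 : HasFDerivAt (fun z => C.g (C.x 0 z)) (C.G.comp (fderiv ℝ (C.x 0) z)) z := by
    have h2 : (fun z => C.g (C.x 0 z)) = fun z => C.G (C.x 0 z) + C.g 0 := by
      funext z; exact hg _
    rw [h2]
    exact (C.G.hasFDerivAt.comp z (C.dx 0 (Nat.zero_le _) z hz).hasFDerivAt).add_const _
  refine HasFDerivAt.prodMk ((C.dx C.N le_rfl z hz).hasFDerivAt.sub h1)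
    (HasFDerivAt.prodMk ((C.de C.N le_rfl z hz).hasFDerivAt.sub
      (C.G.hasFDerivAt.comp z (C.de 0 (Nat.zero_le _) z hz).hasFDerivAt))
      ((C.dn C.N le_rfl z hz).hasFDerivAt.sub
      (C.G.hasFDerivAt.comp z (C.dn 0 (Nat.zero_le _) z hz).hasFDerivAt)))

theorem gap_ker (C : Chn E Z) {z : Z} (hz : z ∈ C.U) {ζ : Z} (h : fderiv ℝ (gap C) z ζ = 0) :
    Cl C z ζ := by
  rw [(gap_diff C hz).fderiv] at h
  have h1 := congrArg Prod.fst h
  have h2 := congrArg (fun p : E × E × E => p.2.1) h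
  have h3 := congrArg (fun p : E × E × E => p.2.2) h
  exact ⟨sub_eq_zero.1 h1, sub_eq_zero.1 h2, sub_eq_zero.1 h3⟩

theorem gap_zero (C : Chn E Z) {z : Z} (hz : z ∈ C.A univ) : gap C z = 0 := by
  unfold gap
  rw [hz.2.1, hz.2.2.1, hz.2.2.2.1]
  simp

/-- The outgoing direction points into the table. -/
theorem out_neg {Ω : Set E} {q v q' v' : E} (h : Step Ω q v q' v') {F : E → ℝ}
    (hF : LocalDef Ω q F) : ⟪gradient F q, v⟫_ℝ ≤ 0 := by
  by_contra hcon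
  obtain ⟨t, ht, -, hin, -⟩ := h
  obtain ⟨s, hs1, hs2⟩ := ((leaves hF (not_le.1 hcon)).and (Ioo_mem_nhdsGT ht)).exists
  exact hs1 (hin s hs2)

theorem focGe_def {Ω : Set E} {q u : E} {κ : ℝ} (h : FocGe Ω q u κ) {F : E → ℝ}
    (hF : LocalDef Ω q F) : ∀ w, ⟪gradient F q, w⟫_ℝ = 0 →
      κ * ‖gradient F q‖ ^ 2 * (‖w‖ ^ 2 - ⟪u, w⟫_ℝ ^ 2) ≤
      2 * |⟪gradient F q, u⟫_ℝ| * fderiv ℝ (fderiv ℝ F) q w w := by
  obtain ⟨F', hF', h⟩ := h
  obtain ⟨l, hl, hg, hc⟩ := curv_rel hF hF'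
  intro w hw
  have h1 := h w (by rw [hg, real_inner_smul_left, hw, mul_zero])
  rw [hc w hw, hg, real_inner_smul_left, abs_mul, abs_of_pos hl, norm_smul, Real.norm_eq_abs,
    abs_of_pos hl, mul_pow] at h1
  have h2 : 0 < l ^ 2 := pow_pos hl 2
  by_contra hcon
  have h3 := mul_lt_mul_of_pos_left (not_le.1 hcon) h2
  linarith [h1, h3]

theorem nonFocusing_def {Ω : Set E} {q : E} (h : NonFocusing Ω q) {F : E → ℝ}
    (hF : LocalDef Ω q F) : ∀ w, ⟪gradient F q, w⟫_ℝ = 0 →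
      fderiv ℝ (fderiv ℝ F) q w w ≤ 0 := by
  obtain ⟨F', hF', h⟩ := h
  obtain ⟨l, hl, hg, hc⟩ := curv_rel hF hF'
  intro w hw
  have h1 := h w (by rw [hg, real_inner_smul_left, hw, mul_zero])
  rw [hc w hw] at h1
  by_contra hcon
  have h3 := mul_pos hl (not_le.1 hcon)
  linarith

theorem zeroCurv_def {Ω : Set E} {q : E} (h : ZeroCurv Ω q) {F : E → ℝ}
    (hF : LocalDef Ω q F) : ∀ w, ⟪gradient F q, w⟫_ℝ = 0 →
      fderiv ℝ (fderiv ℝ F) q w w = 0 := by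
  obtain ⟨F', hF', h⟩ := h
  obtain ⟨l, hl, hg, hc⟩ := curv_rel hF hF'
  intro w hw
  have h1 := h w (by rw [hg, real_inner_smul_left, hw, mul_zero])
  rw [hc w hw] at h1
  exact (mul_eq_zero.1 h1).resolve_left hl.ne'

/-- The closed variations of a trajectory whose beams come back diverging. -/
theorem few_closed [FiniteDimensional ℝ Z] {Ω : Set E} (C : Chn E Z) {z : Z} (hz : z ∈ C.U)
    (he : C.e C.N z = C.G (C.e 0 z)) (hn : C.n C.N z = C.G (C.n 0 z))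
    (hZ : Module.finrank ℝ Z + 2 = 2 * Module.finrank ℝ E)
    {p u : ℕ → E} (hor : OrbitMod Ω C.g C.N p u)
    (hpu : ∀ k ≤ C.N, C.x k z = p k ∧ C.e k z = u k)
    (hF : ∀ k < C.N, ∃ F : E → ℝ, LocalDef Ω (p k) F ∧
            C.n k z = dir (gradient F (p k)) ∧ ∀ a, ⟪C.n k z, a⟫_ℝ = 0 → ⟪C.S k z a, a⟫_ℝ =
              -(‖gradient F (p k)‖⁻¹ * fderiv ℝ (fderiv ℝ F) (p k) a a))
    (hs : Spreads Ω C.N p u) :
    Module.finrank ℝ (LinearMap.ker (fderiv ℝ (gap C) z : Z →ₗ[ℝ] E × E × E)) + 1 ≤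
      Module.finrank ℝ E := by
  classical
  obtain ⟨J, f, hfi, -, hfN, hJq, hJL, hJU, hJT⟩ := unf_jo C hz he hn hZ
  have hN := C.hN
  choose! T hT1 hT2 hT3 using hJT
  choose! F hF1 hF2 hF3 using hF
  have hfr : Module.finrank ℝ (ℝ ∙ C.e 0 z)ᗮ + 1 = Module.finrank ℝ E := by
    have h1 := Submodule.finrank_add_finrank_orthogonal (ℝ ∙ (C.e 0 z))
    have h2 : Module.finrank ℝ (ℝ ∙ (C.e 0 z)) = 1 := by
      refine finrank_span_singleton fun h0 => ?_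
      have h6 := C.ee 0 C.hN z hz
      rw [h0, inner_zero_left] at h6
      exact zero_ne_one h6
    omega
  have hgpos : ∀ b < C.N, 0 < ‖gradient (F b) (p b)‖ := fun b hb => norm_pos_iff.2 (hF1 b hb).grad
  have hnF : ∀ b < C.N, ∀ w, ⟪C.n b z, w⟫_ℝ = ‖gradient (F b) (p b)‖⁻¹ *
      ⟪gradient (F b) (p b), w⟫_ℝ := by
    intro b hb w
    rw [hF2 b hb]; unfold dir
    rw [real_inner_smul_left]
  have hng : ∀ b < C.N, ∀ w, ⟪C.n b z, w⟫_ℝ = 0 → ⟪gradient (F b) (p b), w⟫_ℝ = 0 := by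
    intro b hb w hw
    rw [hnF b hb] at hw
    exact (mul_eq_zero.1 hw).resolve_left (inv_ne_zero (hgpos b hb).ne')
  have hneg : ∀ b < C.N, ⟪C.n b z, C.e b z⟫_ℝ < 0 := by
    intro b hb
    refine lt_of_le_of_ne ?_ (C.tr b hb z hz)
    rw [hnF b hb, (hpu b hb.le).2]
    exact mul_nonpos_of_nonneg_of_nonpos (inv_nonneg.2 (norm_nonneg _))
      (out_neg (hor.step b) (hF1 b hb))
  -- the curvature
  have hKy : ∀ k, k + 1 < C.N → ∀ y, ⟪J.K k y, y⟫_ℝ = -(-2 * ⟪C.n (k + 1) z, C.e (k + 1) z⟫_ℝ *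
      (‖gradient (F (k + 1)) (p (k + 1))‖⁻¹ *
        fderiv ℝ (fderiv ℝ (F (k + 1))) (p (k + 1)) (T k y) (T k y))) := by
    intro k hk y
    have hnx : nx C.N k = k + 1 := if_pos hk
    have h1 := hT1 k (by omega) y
    have h3 := hT3 k (by omega) y y
    rw [hnx] at h1 h3
    rw [h3, hF3 _ hk _ h1]
    ring
  have hTg : ∀ k, k + 1 < C.N → ∀ y, ⟪gradient (F (k + 1)) (p (k + 1)), T k y⟫_ℝ = 0 := by
    intro k hk y
    have hnx : nx C.N k = k + 1 := if_pos hk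
    have h1 := hT1 k (by omega) y
    rw [hnx] at h1
    exact hng _ hk _ h1
  have hTn : ∀ k, k + 1 < C.N → ∀ y, ‖y‖ ^ 2 = ‖T k y‖ ^ 2 - ⟪u (k + 1), (T k y : E)⟫_ℝ ^ 2 := by
    intro k hk y
    have hnx : nx C.N k = k + 1 := if_pos hk
    have h2 := hT2 k (by omega) y
    rw [hnx, (hpu _ hk.le).2] at h2
    exact h2
  obtain ⟨a, b, hb0, hab, han, hcase⟩ := hs
  have hbeam := beam J a b hb0 (fun k hk => by
      rw [hJq] at hk
      refine (hab k hk).trans (le_of_eq ?_)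
      congr 1
      rw [hJL k hk, ← (hpu k hk.le).1, ← (hpu (k + 1) hk).1, C.step k hk z,
        add_sub_cancel_left, norm_smul]
      have h5 : ‖C.e k z‖ = 1 := by
        have h6 := C.ee k hk z hz
        rw [real_inner_self_eq_norm_sq] at h6
        nlinarith [norm_nonneg (C.e k z)]
      rw [h5, mul_one, Real.norm_eq_abs, abs_of_pos (C.Lpos k hk z hz)])
    (by rw [hJq]; exact han)
    (fun k hk => by
      rw [hJq] at hk
      rcases hcase (k + 1) (Nat.succ_pos k) hk with ⟨h1, h2⟩ | ⟨h1, h2, h3⟩ | ⟨κ, h1, h2, h3, h4⟩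
      · left
        refine ⟨?_, h2⟩
        have hz0 : ∀ y, ⟪J.K k y, y⟫_ℝ = 0 := by
          intro y
          rw [hKy k hk, zeroCurv_def h1 (hF1 _ hk) _ (hTg k hk y)]
          ring
        apply LinearMap.ext
        intro y
        rw [LinearMap.zero_apply, ← inner_self_eq_zero (𝕜 := ℝ)]
        have h5 := hz0 (y + J.K k y)
        rw [map_add, inner_add_left, inner_add_right, inner_add_right, hz0, hz0,
          J.sym k (by rw [hJq]; omega) (J.K k y) y] at h5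
        linarith
      · right; left
        refine ⟨fun y => ?_, h2, h3⟩
        rw [hKy k hk]
        have h5 := nonFocusing_def h1 (hF1 _ hk) _ (hTg k hk y)
        have h6 := hneg _ hk
        have h7 := mul_nonpos_of_nonneg_of_nonpos (inv_nonneg.2 (hgpos _ hk).le) h5
        have h8 := mul_nonneg_of_nonpos_of_nonpos h6.le h7
        linarith
      · right; right
        refine ⟨κ, h1, fun y => ?_, h3, h4⟩
        rw [hKy k hk, neg_neg]
        have h5 := focGe_def h2 (hF1 _ hk) _ (hTg k hk y)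
        rw [← hTn k hk y] at h5
        have h6 : |⟪gradient (F (k + 1)) (p (k + 1)), u (k + 1)⟫_ℝ| =
            -(‖gradient (F (k + 1)) (p (k + 1))‖ * ⟪C.n (k + 1) z, C.e (k + 1) z⟫_ℝ) := by
          have h7 : ⟪gradient (F (k + 1)) (p (k + 1)), u (k + 1)⟫_ℝ =
              ‖gradient (F (k + 1)) (p (k + 1))‖ * ⟪C.n (k + 1) z, C.e (k + 1) z⟫_ℝ := by
            rw [hnF _ hk, mul_inv_cancel_left₀ (hgpos _ hk).ne', (hpu _ hk.le).2]
          rw [h7, abs_of_neg (mul_neg_of_pos_of_neg (hgpos _ hk) (hneg _ hk))]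
        rw [h6] at h5
        have h8 := hgpos _ hk
        refine le_of_mul_le_mul_left (a := ‖gradient (F (k + 1)) (p (k + 1))‖ ^ 2) ?_
          (pow_pos h8 2)
        refine le_trans (le_of_eq ?_) (h5.trans (le_of_eq ?_))
        · ring
        · field_simp)
  have hK : Module.finrank ℝ (LinearMap.ker (fderiv ℝ (gap C) z : Z →ₗ[ℝ] E × E × E)) ≤
      Module.finrank ℝ J.N := by
    obtain ⟨g, hg⟩ : ∃ g : LinearMap.ker (fderiv ℝ (gap C) z : Z →ₗ[ℝ] E × E × E) →ₗ[ℝ] J.N,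
        ∀ ζ, (g ζ : (ℝ ∙ C.e 0 z)ᗮ × (ℝ ∙ C.e 0 z)ᗮ) = f ζ :=
      ⟨LinearMap.codRestrict J.N (f ∘ₗ (LinearMap.ker
        (fderiv ℝ (gap C) z : Z →ₗ[ℝ] E × E × E)).subtype)
        (fun ζ => hfN _ (gap_ker C hz (LinearMap.mem_ker.1 ζ.2))), fun ζ => rfl⟩
    refine LinearMap.finrank_le_finrank_of_injective (f := g) ?_
    intro ζ ζ' h
    apply Subtype.ext
    apply hfi
    rw [← hg, ← hg, h]
  omega

end

section
variable {E : Type*} [NormedAddCommGroup E] [InnerProductSpace ℝ E] [FiniteDimensional ℝ E]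

theorem local_dim (hd : 1 ≤ Module.finrank ℝ E) {Ω : Set E} {g : E ≃ᵃⁱ[ℝ] E}
    (hg : g ⁻¹' Ω = Ω) {n m : ℕ} (hm : m ≤ n) {p u : ℕ → E} (h : OrbitMod Ω g n p u) :
    ∃ Y : Set (E × E), dimH Y ≤ ((Module.finrank ℝ E - 1 : ℕ) : ℝ≥0∞) ∧
      ∀ᶠ w : (ℕ → E) × (ℕ → E) in 𝓝 (p, u), (OrbitMod Ω g n w.1 w.2 ∧
        Spreads Ω n w.1 w.2) → (w.1 m, w.2 m) ∈ Y := by
  obtain ⟨a, b, C, ha, hb, hCN, hCg, hLip, hev⟩ := exists_chn2 hg h
  have hfr : Module.finrank ℝ ((ℝ ∙ a)ᗮ × (ℝ ∙ b)ᗮ) + 2 = 2 * Module.finrank ℝ E := by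
    have h1 := Submodule.finrank_add_finrank_orthogonal (ℝ ∙ a)
    have h2 := Submodule.finrank_add_finrank_orthogonal (ℝ ∙ b)
    rw [finrank_span_singleton ha] at h1
    rw [finrank_span_singleton hb] at h2
    rw [Module.finrank_prod]
    omega
  obtain ⟨K, hK⟩ := hLip m hm
  obtain ⟨B, hB⟩ : ∃ B, B = {z | z ∈ C.A univ ∧ Module.finrank ℝ
    (LinearMap.ker (fderiv ℝ (gap C) z : ((ℝ ∙ a)ᗮ × (ℝ ∙ b)ᗮ) →ₗ[ℝ] E × E × E)) ≤
      Module.finrank ℝ E - 1} := ⟨_, rfl⟩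
  have hBd : dimH B ≤ ((Module.finrank ℝ E - 1 : ℕ) : ℝ≥0∞) := by
    rw [hB]
    exact dimH_ker (fun z hz => (gap_diff C hz.1).differentiableAt) (fun z hz => gap_zero C hz) _
  refine ⟨(fun z => (C.x m z, C.e m z)) '' B, ?_, ?_⟩
  · have hK' : LipschitzOnWith K (fun z => (C.x m z, C.e m z)) B :=
      hK.mono fun z hz => by rw [hB] at hz; exact hz.1.1
    exact hK'.dimH_image_le.trans hBd
  · filter_upwards [hev] with w hw hor
    obtain ⟨z, hzU, hz1, hz2, hz3⟩ := hw hor.1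
    refine ⟨z, ?_, ?_⟩
    swap
    · simp only
      rw [(hz1 m hm).1, (hz1 m hm).2]
    have hzA : z ∈ C.A univ := by
      refine ⟨hzU, ?_, ?_, hz2, fun k _ hk => absurd (mem_univ k) hk⟩
      · rw [hCN, (hz1 n le_rfl).1, (hz1 0 (Nat.zero_le _)).1, hCg]
        have := hor.1.perp 0
        rwa [zero_add] at this
      · rw [hCN, (hz1 n le_rfl).2, (hz1 0 (Nat.zero_le _)).2, C.G_apply, hCg]
        have := hor.1.peru 0
        rwa [zero_add] at this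
    rw [hB]
    refine ⟨hzA, ?_⟩
    subst hCN
    subst hCg
    have h1 := few_closed C hzU hzA.2.2.1 hzA.2.2.2.1 hfr hor.1 hz1 hz3 hor.2
    omega

/-- The phase points after `m` bounces. -/
def Pd (Ω : Set E) (g : E ≃ᵃⁱ[ℝ] E) (n m : ℕ) : Set (E × E) :=
  (fun w : (ℕ → E) × (ℕ → E) => (w.1 m, w.2 m)) ''
    {w | OrbitMod Ω g n w.1 w.2 ∧ Spreads Ω n w.1 w.2}

theorem pd_dim (hd : 1 ≤ Module.finrank ℝ E) {Ω : Set E} {g : E ≃ᵃⁱ[ℝ] E} (hg : g ⁻¹' Ω = Ω)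
    {n m : ℕ} (hm : m ≤ n) : dimH (Pd Ω g n m) ≤ ((Module.finrank ℝ E - 1 : ℕ) : ℝ≥0∞) := by
  apply dim_of_local
  rintro ⟨p, u⟩ ⟨h, -⟩
  exact local_dim hd hg hm h

/-- **The main theorem.** -/
theorem spread_dim (hd : 1 ≤ Module.finrank ℝ E) (Ω : Set E) (Γ : Set (E ≃ᵃⁱ[ℝ] E))
    (hΓ : Γ.Countable) (hinv : ∀ g ∈ Γ, g ⁻¹' Ω = Ω) :
    dimH (SpreadPer Γ Ω) ≤ ((Module.finrank ℝ E - 1 : ℕ) : ℝ≥0∞) := by
  refine (dimH_mono (t := ⋃ g ∈ Γ, ⋃ n : ℕ, ⋃ m : ℕ, ⋃ (_ : m ≤ n),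
    {z : E × E | (g z.1, g.linearIsometryEquiv z.2) ∈ Pd Ω g n m}) ?_).trans ?_
  · rintro z ⟨g, hgΓ, n, p, u, i, h, rfl, hin, hw⟩
    refine mem_iUnion₂.2 ⟨g, hgΓ, mem_iUnion.2 ⟨n, mem_iUnion.2 ⟨n - i,
      mem_iUnion.2 ⟨Nat.sub_le _ _, ?_⟩⟩⟩⟩
    refine ⟨(fun k => p (k + i), fun k => u (k + i)), ⟨OrbitMod.shift2 h i, hw⟩, ?_⟩
    have e : n - i + i = 0 + n := by omega
    simp only [e, h.perp, h.peru]
  · rw [dimH_bUnion hΓ]
    refine iSup₂_le fun g hg => ?_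
    simp only [dimH_iUnion]
    refine iSup_le fun n => iSup_le fun m => iSup_le fun hm => ?_
    exact (pull_dim g _).trans (pd_dim hd (hinv g hg) hm)

/-- The condition in terms of the reach of the focusing bounces. -/
theorem spreads_of_reach {Ω : Set E} {n : ℕ} (hn : 1 ≤ n) {p u : ℕ → E} (f : ℕ → ℝ)
    (f0 : f 0 = 0) (hr : ∀ k, 0 < k → k < n → Reach Ω (p k) (u k) (f k))
    (hL : ∀ k, k + 1 < n → f k + f (k + 1) ≤ ‖p (k + 1) - p k‖)
    (hl : f (n - 1) < ‖p n - p (n - 1)‖) : Spreads Ω n p u := by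
  obtain ⟨m, rfl⟩ : ∃ m, n = m + 1 := ⟨n - 1, by omega⟩
  rw [Nat.add_sub_cancel] at hl
  refine ⟨fun k => if k ≤ m then f k else ‖p (m + 1) - p m‖ - f m, fun k => -f k, by simp [f0],
    fun k hk => ?_, ?_, fun k hk0 hk => ?_⟩
  · simp only
    split_ifs with h1
    · have := hL k (by omega)
      linarith
    · obtain rfl : k = m := by omega
      linarith
  · simp only
    rw [if_neg (by omega)]
    linarith
  · simp only
    rw [if_pos (by omega)]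
    rcases hr k hk0 hk with ⟨h1, h2⟩ | ⟨h1, h2⟩
    · right; left
      exact ⟨h2, h1.ge, by rw [h1]; simp⟩
    · right; right
      have h3 : 2 / f k * f k = 2 := div_mul_cancel₀ _ h1.ne'
      refine ⟨2 / f k, by positivity, h2, by rw [h3]; norm_num, ?_⟩
      rw [h3]
      norm_num

end

end Pool.Agent.T2H44.DF
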